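import Pool.Agent.Helper38.VF.Goals2

/-! VTF, packet L2D: `1 - y` has dense range. -/

set_option autoImplicit false

namespace Pool.Agent.Helper90.VF

open Pool.Agent.Helper27.VF Pool.Agent.Helper38.VF

universe u

theorem l2d : L2dStmt.{u} := by
  classical
  intro A _ _ hact hTF y hy
  let T : L2 A →ₗ[ℝ] L2 A :=
    { toFun := fun v => v - y • v
      map_add' := fun v w => by rw [smul_add]; abel
      map_smul' := fun c v => by
        have h1 : y • (c • v) = c • (y • v) := by
          ext a
          rw [hact, lp.coeFn_smul, lp.coeFn_smul, Pi.smul_apply, Pi.smul_apply, hact]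
        rw [h1, RingHom.id_apply, smul_sub] }
  have hset : {m : L2 A | ∃ v : L2 A, m = v - y • v} = (LinearMap.range T : Set (L2 A)) := by
    ext m
    constructor
    · rintro ⟨v, rfl⟩; exact ⟨v, rfl⟩
    · rintro ⟨v, rfl⟩; exact ⟨v, rfl⟩
  rw [hset, Submodule.dense_iff_topologicalClosure_eq_top, Submodule.topologicalClosure_eq_top_iff,
    Submodule.eq_bot_iff]
  intro z hz
  have hsingle : ∀ a : A, y • (lp.single 2 a (1 : ℝ) : L2 A) = lp.single 2 (y * a) (1 : ℝ) := by
    intro a
    ext b
    rw [hact, lp.single_apply, lp.single_apply]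
    by_cases h : b = y * a
    · subst h
      rw [inv_mul_cancel_left, Pi.single_eq_same, Pi.single_eq_same]
    · rw [Pi.single_eq_of_ne h, Pi.single_eq_of_ne]
      intro h'
      apply h
      rw [← h', mul_inv_cancel_left]
  have hstep : ∀ a : A, z (y * a) = z a := by
    intro a
    have h1 := (Submodule.mem_orthogonal _ _).1 hz (T (lp.single 2 a (1 : ℝ))) ⟨_, rfl⟩
    change inner ℝ ((lp.single 2 a (1 : ℝ) : L2 A) - y • (lp.single 2 a (1 : ℝ) : L2 A)) z = 0 at h1
    rw [hsingle, inner_sub_left, lp.inner_single_left, lp.inner_single_left] at h1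
    simp only [RCLike.inner_apply, map_one, mul_one, one_mul, conj_trivial] at h1
    linarith
  have hpow : ∀ (n : ℕ) (a : A), z (y ^ n * a) = z a := by
    intro n
    induction n with
    | zero => intro a; rw [pow_zero, one_mul]
    | succ n ih => intro a; rw [pow_succ', mul_assoc, hstep, ih]
  ext a
  by_contra hne
  have hsum := lp.summable_inner (𝕜 := ℝ) z z
  have hinj : Function.Injective (fun n : ℕ => y ^ n * a) := by
    intro m n hmn
    have h1 : y ^ m = y ^ n := mul_right_cancel hmn
    rcases lt_trichotomy m n with h | h | h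
    · exfalso
      apply hy
      apply hTF y (n - m) (by omega)
      have : y ^ n = y ^ m * y ^ (n - m) := by rw [← pow_add]; congr 1; omega
      rw [this] at h1
      exact (mul_eq_left.1 h1.symm)
    · exact h
    · exfalso
      apply hy
      apply hTF y (m - n) (by omega)
      have : y ^ m = y ^ n * y ^ (m - n) := by rw [← pow_add]; congr 1; omega
      rw [this] at h1
      exact (mul_eq_left.1 h1)
  have h2 := hsum.comp_injective hinj
  have h3 : ((fun i => inner ℝ (z i) (z i)) ∘ fun n : ℕ => y ^ n * a) =
      fun _ : ℕ => inner ℝ (z a) (z a) := by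
    funext n
    simp only [Function.comp_apply, hpow]
  rw [h3] at h2
  have h4 := (summable_const_iff _).1 h2
  exact hne (inner_self_eq_zero.1 h4)

end Pool.Agent.Helper90.VF
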