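import Pool.Agent.Helper38.VF.Goals2

/-! VTF, packet KUR. -/

set_option autoImplicit false

namespace Pool.Agent.Helper90.VF

open Pool.Agent.Helper27.VF Pool.Agent.Helper38.VF Filter Topology

universe u

theorem coord {X : Type u} {f : ℕ → L2 X} {g : L2 X} (h : Tendsto f atTop (𝓝 g)) (x : X) :
    Tendsto (fun n => f n x) atTop (𝓝 (g x)) := by
  have h1 : Continuous ((↑) : L2 X → ∀ i, ℝ) := lp.uniformContinuous_coe.continuous
  have h2 : Continuous (fun f : L2 X => (f : ∀ i, ℝ) x) := (continuous_apply x).comp h1
  exact (h2.tendsto g).comp h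

theorem kur : KurStmt.{u} := by
  classical
  intro A k
  have hp : 0 < (2 : ENNReal).toReal := by norm_num
  let T : (Fin k → L2 A) ≃ₗ[ℝ] L2 (Fin k × A) :=
    { toFun := fun e => ⟨fun z => e z.1 z.2, by
        change Memℓp _ 2
        rw [memℓp_gen_iff hp]
        rw [summable_prod_of_nonneg (fun z => by positivity)]
        refine ⟨fun i => ?_, (hasSum_fintype _).summable⟩
        exact (memℓp_gen_iff hp).1 (lp.memℓp (e i))⟩
      invFun := fun f i => ⟨fun b => f (i, b), by
        change Memℓp _ 2
        rw [memℓp_gen_iff hp]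
        have h1 := (memℓp_gen_iff hp).1 (lp.memℓp f)
        exact h1.comp_injective (Prod.mk_right_injective i)⟩
      left_inv := fun e => by funext i; ext b; rfl
      right_inv := fun f => by ext z; rfl
      map_add' := fun e e' => by ext z; rfl
      map_smul' := fun c e => by ext z; rfl }
  have hT : ∀ e i b, T e (i, b) = e i b := fun e i b => rfl
  have hcont : Continuous T := by
    have : Continuous (T : (Fin k → L2 A) →ₗ[ℝ] L2 (Fin k × A)) := by
      refine LinearMap.continuous_of_seq_closed_graph _ ?_
      intro s x y hs hy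
      ext ⟨i, b⟩
      have h1 := coord hy (i, b)
      have h2 : Tendsto (fun n => s n i) atTop (𝓝 (x i)) :=
        ((continuous_apply i).tendsto x).comp hs
      have h3 := coord h2 b
      exact tendsto_nhds_unique h1 h3
    exact this
  exact ⟨T.toContinuousLinearEquivOfContinuous hcont, hT⟩

end Pool.Agent.Helper90.VF
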