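import Pool.Agent.Helper27.VF.Goals

/-! VF, packet RNK: the rank drops. -/

set_option autoImplicit false

namespace Pool.Agent.Helper90.VF

open Pool.Agent.Helper27.VF

universe u v w

section der

variable {G : Type u} [Group G] {M : Type v} [AddCommGroup M] [DistribMulAction G M]

theorem der_one {δ : G → M} (h : IsDer δ) : δ 1 = 0 := by
  have := h 1 1
  rw [mul_one, one_smul] at this
  simpa using this

theorem der_inv {δ : G → M} (h : IsDer δ) (g : G) : δ g⁻¹ = -(g⁻¹ • δ g) := by
  have := h g⁻¹ g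
  rw [inv_mul_cancel, der_one h] at this
  exact eq_neg_of_add_eq_zero_left this.symm

theorem der_unique {ι : Type w} (e : FreeGroup ι ≃* G) {δ δ' : G → M} (h : IsDer δ)
    (h' : IsDer δ') (heq : ∀ i, δ (e (FreeGroup.of i)) = δ' (e (FreeGroup.of i))) : δ = δ' := by
  have key : ∀ z : FreeGroup ι, δ (e z) = δ' (e z) := by
    intro z
    induction z using FreeGroup.induction_on with
    | C1 => rw [map_one, der_one h, der_one h']
    | of x => exact heq x
    | inv_of x hx => rw [map_inv, der_inv h, der_inv h', heq x]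
    | mul x y hx hy => rw [map_mul, h, h', hx, hy]
  funext g
  have := key (e.symm g)
  rwa [e.apply_symm_apply] at this

/-- the affine permutation -/
def aff (m : M) (g : G) : Equiv.Perm M where
  toFun x := m + g • x
  invFun x := g⁻¹ • (x - m)
  left_inv x := by simp
  right_inv x := by simp

theorem der_exists {ι : Type w} (e : FreeGroup ι ≃* G) (φ : ι → M) :
    ∃ δ : G → M, IsDer δ ∧ ∀ i, δ (e (FreeGroup.of i)) = φ i := by
  let ρ : FreeGroup ι →* Equiv.Perm M := FreeGroup.lift (fun i => aff (φ i) (e (FreeGroup.of i)))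
  have hgen : ∀ i x, ρ (FreeGroup.of i) x = φ i + e (FreeGroup.of i) • x := by
    intro i x
    change (FreeGroup.lift (fun i => aff (φ i) (e (FreeGroup.of i))) (FreeGroup.of i)) x = _
    rw [FreeGroup.lift_apply_of]
    rfl
  have key : ∀ z : FreeGroup ι, ∀ x : M, ρ z x = ρ z 0 + e z • x := by
    intro z
    induction z using FreeGroup.induction_on with
    | C1 => intro x; simp
    | of i => intro x; rw [hgen, hgen, smul_zero, add_zero]
    | inv_of i hi =>
      intro x
      have h1 : ∀ y, ρ (FreeGroup.of i)⁻¹ y = (e (FreeGroup.of i))⁻¹ • (y - φ i) := by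
        intro y
        rw [map_inv, Equiv.Perm.inv_eq_iff_eq, hgen, smul_inv_smul]
        abel
      rw [h1, h1, map_inv, zero_sub, smul_sub, smul_neg]
      abel
    | mul a b ha hb =>
      intro x
      rw [map_mul, Equiv.Perm.mul_apply, Equiv.Perm.mul_apply, ha (ρ b x), ha (ρ b 0), hb x,
        map_mul, mul_smul, smul_add]
      abel
  refine ⟨fun g => ρ (e.symm g) 0, ?_, ?_⟩
  · intro g g'
    change ρ (e.symm (g * g')) 0 = ρ (e.symm g) 0 + g • ρ (e.symm g') 0
    rw [map_mul, map_mul, Equiv.Perm.mul_apply, key, e.apply_symm_apply]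
  · intro i
    change ρ (e.symm (e (FreeGroup.of i))) 0 = φ i
    rw [e.symm_apply_apply, hgen, smul_zero, add_zero]

end der

/-- functions on the cosets -/
def Fn (A : Type u) [Group A] (L : Subgroup A) : Type u := A ⧸ L → ZMod 2

instance (A : Type u) [Group A] (L : Subgroup A) : AddCommGroup (Fn A L) :=
  inferInstanceAs (AddCommGroup (A ⧸ L → ZMod 2))

instance (A : Type u) [Group A] (L : Subgroup A) : DistribMulAction A (Fn A L) where
  smul g f := fun q => f (g⁻¹ • q)
  one_smul f := by
    funext q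
    change f ((1 : A)⁻¹ • q) = f q
    rw [inv_one, one_smul]
  mul_smul g h f := by
    funext q
    change f ((g * h)⁻¹ • q) = f (h⁻¹ • g⁻¹ • q)
    rw [mul_inv_rev, mul_smul]
  smul_zero g := rfl
  smul_add g f f' := rfl

theorem smul_fn {A : Type u} [Group A] {L : Subgroup A} (g : A) (f : Fn A L) (q : A ⧸ L) :
    (g • f) q = f (g⁻¹ • q) := rfl

/-- the trivial module with two elements -/
def Tr (A : Type u) : Type u := ULift.{u} (ZMod 2)

instance (A : Type u) : AddCommGroup (Tr A) := inferInstanceAs (AddCommGroup (ULift.{u} (ZMod 2)))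

instance (A : Type u) [Group A] : DistribMulAction A (Tr A) where
  smul _ x := x
  one_smul _ := rfl
  mul_smul _ _ _ := rfl
  smul_zero _ := rfl
  smul_add _ _ _ := rfl

/-- the restriction of derivations, in coordinates -/
theorem surj {A : Type u} [Group A] {B : Subgroup A} {m : ℕ} {X : Type u}
    (e : FreeGroup (Fin m) ≃* A) (eB : FreeGroup X ≃* B)
    (M : Type u) [AddCommGroup M] [DistribMulAction A M]
    (h : ∀ f : B → M, IsDerOn B f → ∃ δ : A → M, IsDer δ ∧ ∀ b : B, δ b = f b) :
    ∃ T : (Fin m → M) → (X → M), Function.Surjective T ∧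
      ∀ δ : A → M, IsDer δ → T (fun i => δ (e (FreeGroup.of i))) =
        fun x => δ ((eB (FreeGroup.of x) : B) : A) := by
  classical
  choose D hD1 hD2 using fun φ : Fin m → M => der_exists e φ
  refine ⟨fun φ x => D φ ((eB (FreeGroup.of x) : B) : A), ?_, ?_⟩
  · intro ψ
    obtain ⟨f, hf1, hf2⟩ := der_exists (M := M) eB ψ
    obtain ⟨δ, hδ1, hδ2⟩ := h f hf1
    refine ⟨fun i => δ (e (FreeGroup.of i)), ?_⟩
    have h1 : D (fun i => δ (e (FreeGroup.of i))) = δ :=
      der_unique e (hD1 _) hδ1 (fun i => hD2 _ i)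
    funext x
    change D (fun i => δ (e (FreeGroup.of i))) _ = _
    rw [h1, hδ2, hf2]
  · intro δ hδ
    have h1 : D (fun i => δ (e (FreeGroup.of i))) = δ :=
      der_unique e (hD1 _) hδ (fun i => hD2 _ i)
    funext x
    change D (fun i => δ (e (FreeGroup.of i))) _ = _
    rw [h1]

theorem rnk (hHal : HalStmt) : RnkStmt.{u} := by
  classical
  intro m A _ ⟨e⟩ B hB hext
  haveI : IsFreeGroup A := ⟨ULift.{u} (Fin m), ⟨FreeGroupBasis.ofRepr
    ((e.symm).trans (FreeGroup.freeGroupCongr Equiv.ulift.symm))⟩⟩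
  let X : Type u := IsFreeGroup.Generators B
  let eB : FreeGroup X ≃* B := IsFreeGroup.mulEquiv B
  -- step 1
  haveI hfT : Finite (Tr A) := inferInstanceAs (Finite (ULift.{u} (ZMod 2)))
  obtain ⟨T, hT, -⟩ := surj e eB (Tr A) (fun f hf => hext (Tr A) f hf)
  haveI hfin : Finite (X → Tr A) := Finite.of_surjective T hT
  haveI hX : Finite X := by
    let one : Tr A := (ULift.up 1 : ULift.{u} (ZMod 2))
    have h10 : one ≠ 0 := by
      intro h
      have : (1 : ZMod 2) = 0 := congrArg ULift.down h
      exact one_ne_zero this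
    refine Finite.of_injective (fun x : X => (fun y => if y = x then one else 0 : X → Tr A)) ?_
    intro x y hxy
    by_contra hne
    have := congrFun hxy x
    simp only [if_true] at this
    rw [if_neg hne] at this
    exact h10 this
  haveI := Fintype.ofFinite X
  have hcard : ∀ (M : Type u) [Finite M], Nat.card (X → M) = Nat.card M ^ Fintype.card X := by
    intro M _
    rw [Nat.card_fun, Nat.card_eq_fintype_card (α := X)]
  have hcardA : ∀ (M : Type u) [Finite M], Nat.card (Fin m → M) = Nat.card M ^ m := by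
    intro M _
    rw [Nat.card_fun, Nat.card_eq_fintype_card (α := Fin m), Fintype.card_fin]
  have h2 : Nat.card (Tr A) = 2 := by
    change Nat.card (ULift.{u} (ZMod 2)) = 2
    rw [Nat.card_congr Equiv.ulift, Nat.card_eq_fintype_card, ZMod.card]
  have hle : Fintype.card X ≤ m := by
    have h3 := Nat.card_le_card_of_surjective T hT
    rw [hcard, hcardA, h2] at h3
    exact (Nat.pow_le_pow_iff_right (by norm_num)).1 h3
  rcases hle.lt_or_eq with hlt | heq
  · exact ⟨Fintype.card X, hlt,
      ⟨(FreeGroup.freeGroupCongr (Fintype.equivFin X).symm).trans eB⟩⟩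
  exfalso
  -- Marshall Hall
  have hFG : Group.FG B := Group.fg_of_surjective (f := eB.toMonoidHom) eB.surjective
  let B' : Subgroup (FreeGroup (Fin m)) := B.map e.symm.toMonoidHom
  have hB'FG : B'.FG := by
    obtain ⟨S, hS⟩ := (Group.fg_iff_subgroup_fg B).1 hFG
    refine ⟨S.image e.symm.toMonoidHom, ?_⟩
    rw [Finset.coe_image, ← MonoidHom.map_closure, hS]
  have hB' : B' ≠ ⊤ := by
    intro h
    apply hB
    rw [eq_top_iff]
    intro a _
    have h1 : e.symm a ∈ B' := by rw [h]; trivial
    obtain ⟨b, hb, hba⟩ := h1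
    have : b = a := e.symm.injective hba
    rwa [← this]
  obtain ⟨L', hL1, hL2, hL3⟩ := hHal m B' hB'FG hB'
  let L : Subgroup A := L'.comap e.symm.toMonoidHom
  have hBL : B ≤ L := by
    intro b hb
    change e.symm b ∈ L'
    exact hL1 ⟨b, hb, rfl⟩
  have hLtop : L ≠ ⊤ := by
    intro h
    apply hL2
    rw [eq_top_iff]
    intro z _
    have h1 : e z ∈ L := by rw [h]; trivial
    change e.symm (e z) ∈ L' at h1
    rwa [e.symm_apply_apply] at h1
  haveI hLfin : L.FiniteIndex := by
    refine ⟨?_⟩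
    have h1 : L.index = L'.index :=
      Subgroup.index_comap_of_surjective L' e.symm.surjective
    rw [h1]
    exact hL3.index_ne_zero
  haveI : Finite (A ⧸ L) := Subgroup.finite_quotient_of_finiteIndex
  haveI hfF : Finite (Fn A L) := inferInstanceAs (Finite (A ⧸ L → ZMod 2))
  obtain ⟨T2, hT2, hT3⟩ := surj e eB (Fn A L) (fun f hf => hext (Fn A L) f hf)
  have hinj : Function.Injective T2 := by
    haveI := Fintype.ofFinite (Fin m → Fn A L)
    haveI := Fintype.ofFinite (X → Fn A L)
    have hc : Fintype.card (Fin m → Fn A L) = Fintype.card (X → Fn A L) := by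
      rw [← Nat.card_eq_fintype_card, ← Nat.card_eq_fintype_card, hcard, hcardA, heq]
    exact ((Fintype.bijective_iff_surjective_and_card T2).2 ⟨hT2, hc⟩).1
  let v : Fn A L := fun q => if q = ((1 : A) : A ⧸ L) then 1 else 0
  let δ : A → Fn A L := fun g => g • v - v
  have hδ : IsDer δ := by
    intro g g'
    change (g * g') • v - v = (g • v - v) + g • (g' • v - v)
    rw [smul_sub, mul_smul]
    abel
  have hvB : ∀ b ∈ B, b • v = v := by
    intro b hb
    funext q
    rw [smul_fn]
    change (if b⁻¹ • q = ((1 : A) : A ⧸ L) then (1 : ZMod 2) else 0) =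
      if q = ((1 : A) : A ⧸ L) then 1 else 0
    have h1 : b⁻¹ • q = ((1 : A) : A ⧸ L) ↔ q = ((1 : A) : A ⧸ L) := by
      rw [inv_smul_eq_iff]
      have h2 : b • ((1 : A) : A ⧸ L) = ((1 : A) : A ⧸ L) := by
        change ((b * 1 : A) : A ⧸ L) = _
        rw [mul_one, QuotientGroup.eq, mul_one]
        exact L.inv_mem (hBL hb)
      rw [h2]
    simp only [h1]
  have h0 : IsDer (fun _ : A => (0 : Fn A L)) := by
    intro g g'
    simp
  have h4 : T2 (fun i => δ (e (FreeGroup.of i))) = T2 (fun _ => 0) := by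
    rw [hT3 δ hδ, hT3 (fun _ => 0) h0]
    funext x
    change ((eB (FreeGroup.of x) : B) : A) • v - v = 0
    rw [hvB _ (eB (FreeGroup.of x)).2, sub_self]
  have h5 := hinj h4
  have h6 : δ = fun _ => 0 := der_unique e hδ h0 (fun i => congrFun h5 i)
  apply hLtop
  rw [eq_top_iff]
  intro g _
  have h7 : g • v = v := by
    have := congrFun h6 g
    exact sub_eq_zero.1 this
  have h8 := congrFun h7 ((g : A) : A ⧸ L)
  rw [smul_fn] at h8
  change (if g⁻¹ • ((g : A) : A ⧸ L) = ((1 : A) : A ⧸ L) then (1 : ZMod 2) else 0) =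
      if ((g : A) : A ⧸ L) = ((1 : A) : A ⧸ L) then 1 else 0 at h8
  have h9 : g⁻¹ • ((g : A) : A ⧸ L) = ((1 : A) : A ⧸ L) := by
    change ((g⁻¹ * g : A) : A ⧸ L) = _
    rw [inv_mul_cancel]
  rw [if_pos h9] at h8
  by_contra hg
  have h10 : ((g : A) : A ⧸ L) ≠ ((1 : A) : A ⧸ L) := by
    intro h
    rw [QuotientGroup.eq, mul_one] at h
    exact hg (by simpa using L.inv_mem h)
  rw [if_neg h10] at h8
  exact one_ne_zero h8

end Pool.Agent.Helper90.VF
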